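import Pool.Agent.Helper29.E3.St2
import Pool.Agent.Helper49.PC.M_PCE

/-!
# Project E3, module PC2: pieces of the bilinear sum
-/

set_option autoImplicit false

namespace Pool.Agent.Helper25.E3

open Finset ArithmeticFunction
open Pool.Agent.Helper48.BK (ex th lz Vz Pz gs nd Apx AdN Sol thd)
open Pool.Agent.Helper29.E3 Pool.Agent.Helper49.PC

theorem hPC2 (hMSQ : StMSQ) (hDVK : StDVK) (hMOM : StMOM) (hHLD : StHLD) : StPC2 := by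
  intro r hr
  obtain ⟨C0, c0, hC0, hM⟩ := hMOM r hr
  refine ⟨2 ^ (2 * r + 1) * C0, 4 * r + c0, by positivity, ?_⟩
  intro q _ X U V α β T K K' y₀ y₁ W Y G S hX hqV hqU hT hα hβ hK hKK' hK2 hy hW hS hY
  obtain ⟨NA, hNA⟩ : ∃ NA : ℕ, NA = min X ⌊K'⌋₊ := ⟨_, rfl⟩
  obtain ⟨NB, hNB⟩ : ∃ NB : ℕ, NB = ⌊(X : ℝ) / K'⌋₊ := ⟨_, rfl⟩
  have hK'1 : 1 ≤ K' := hK.trans hKK'
  have hK'0 : 0 < K' := by linarith
  have hX0 : (0 : ℝ) ≤ X := Nat.cast_nonneg X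
  have hNAX : NA ≤ X := by
    rw [hNA]
    exact min_le_left _ _
  have hNA2 : (NA : ℝ) ≤ K' := by
    have h5 : NA ≤ ⌊K'⌋₊ := by
      rw [hNA]
      exact min_le_right _ _
    exact (Nat.cast_le.2 h5).trans (Nat.floor_le hK'0.le)
  have hNB2 : (NB : ℝ) ≤ X / K' := by
    rw [hNB]
    exact Nat.floor_le (by positivity)
  have hNBX : NB ≤ X := by
    have h5 : (NB : ℝ) ≤ X := hNB2.trans (div_le_self hX0 hK'1)
    exact_mod_cast h5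
  have hNN : (NA : ℝ) * NB ≤ X := by
    calc (NA : ℝ) * NB ≤ K' * (X / K') := mul_le_mul hNA2 hNB2 (Nat.cast_nonneg _) hK'0.le
      _ = X := by field_simp
  -- the two functions
  have hPA : ∀ k : ℕ, (K < (k : ℝ) ∧ (k : ℝ) ≤ K') → k ≤ ⌊K'⌋₊ := fun k hk => Nat.le_floor hk.2
  have hPB : ∀ l : ℕ, (y₀ < (l : ℝ) ∧ (l : ℝ) ≤ y₁) → l ≤ NB := by
    intro l hl
    rw [hNB]
    apply Nat.le_floor
    rw [le_div_iff₀ hK'0]
    exact (mul_le_mul_of_nonneg_right hl.2 hK'0.le).trans hy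
  have cA : ∀ χ : DirichletCharacter ℂ q,
      ∑ k ∈ (Ioc 0 X).filter (fun k : ℕ => K < (k : ℝ) ∧ (k : ℝ) ≤ K'),
      ((α k : ℝ) : ℂ) * χ (k : ZMod q) = ∑ n ∈ Ioc 0 NA,
      (if K < (n : ℝ) ∧ (n : ℝ) ≤ K' then ((α n : ℝ) : ℂ) else 0) * χ (n : ZMod q) := by
    intro χ
    rcases le_total X ⌊K'⌋₊ with hc | hc
    · have hNA' : NA = X := by rw [hNA, min_eq_left hc]
      rw [hNA', Finset.sum_filter]
      refine Finset.sum_congr rfl fun n _ => ?_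
      split_ifs
      · rfl
      · rw [zero_mul]
    · have hNA' : NA = ⌊K'⌋₊ := by rw [hNA, min_eq_right hc]
      rw [hNA']
      exact conv_PCE X _ hc (fun k : ℕ => K < (k : ℝ) ∧ (k : ℝ) ≤ K') hPA
        (fun k => ((α k : ℝ) : ℂ)) χ
  have cB : ∀ χ : DirichletCharacter ℂ q,
      ∑ l ∈ (Ioc 0 X).filter (fun l : ℕ => y₀ < (l : ℝ) ∧ (l : ℝ) ≤ y₁),
      ((β l : ℝ) : ℂ) * χ (l : ZMod q) = ∑ n ∈ Ioc 0 NB,
      (if y₀ < (n : ℝ) ∧ (n : ℝ) ≤ y₁ then ((β n : ℝ) : ℂ) else 0) * χ (n : ZMod q) := by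
    intro χ
    exact conv_PCE X _ hNBX (fun l : ℕ => y₀ < (l : ℝ) ∧ (l : ℝ) ≤ y₁) hPB
      (fun k => ((β k : ℝ) : ℂ)) χ
  have bA : ∀ n : ℕ, ‖(if K < (n : ℝ) ∧ (n : ℝ) ≤ K' then ((α n : ℝ) : ℂ) else 0)‖ ≤
      T * (n.divisors.card : ℝ) := by
    intro n
    split_ifs
    · rw [Complex.norm_real, Real.norm_eq_abs]
      exact hα.1 n
    · rw [norm_zero]
      positivity
  have bB : ∀ n : ℕ, ‖(if y₀ < (n : ℝ) ∧ (n : ℝ) ≤ y₁ then ((β n : ℝ) : ℂ) else 0)‖ ≤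
      T * (n.divisors.card : ℝ) := by
    intro n
    split_ifs
    · rw [Complex.norm_real, Real.norm_eq_abs]
      exact hβ.1 n
    · rw [norm_zero]
      positivity
  have hY0 : 0 ≤ Y := (Finset.sum_nonneg fun _ _ => sq_nonneg _).trans hY
  have hL0 : 0 ≤ Real.log X := Real.log_natCast_nonneg X
  have hR : 0 ≤ 2 ^ (2 * r + 1) * C0 * T ^ (4 * r) * (X : ℝ) ^ (2 * r) *
      (1 + Real.log X) ^ (4 * r + c0) * (Y ^ (r - 1) * W ^ 2) := by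
    positivity
  have h2r : 2 * r ≠ 0 := by omega
  rw [Finset.sum_congr rfl fun χ _ => by rw [cA χ, cB χ]]
  -- the empty cases
  by_cases hA : NA ≤ V
  · refine le_trans (le_of_eq ?_) hR
    rw [Finset.sum_eq_zero, zero_pow h2r]
    intro χ _
    have h0 : ∑ n ∈ Ioc 0 NA,
      (if K < (n : ℝ) ∧ (n : ℝ) ≤ K' then ((α n : ℝ) : ℂ) else 0) * χ (n : ZMod q) = 0 := by
      refine Finset.sum_eq_zero fun n hn => ?_
      rw [mem_Ioc] at hn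
      rw [hα.2 n (by omega)]
      split_ifs
      · rw [Complex.ofReal_zero, zero_mul]
      · rw [zero_mul]
    rw [h0, norm_zero, zero_mul, mul_zero]
  by_cases hB : NB ≤ U
  · refine le_trans (le_of_eq ?_) hR
    rw [Finset.sum_eq_zero, zero_pow h2r]
    intro χ _
    have h0 : ∑ n ∈ Ioc 0 NB,
      (if y₀ < (n : ℝ) ∧ (n : ℝ) ≤ y₁ then ((β n : ℝ) : ℂ) else 0) * χ (n : ZMod q) = 0 := by
      refine Finset.sum_eq_zero fun n hn => ?_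
      rw [mem_Ioc] at hn
      rw [hβ.2 n (by omega)]
      split_ifs
      · rw [Complex.ofReal_zero, zero_mul]
      · rw [zero_mul]
    rw [h0, norm_zero, mul_zero, mul_zero]
  push Not at hA hB
  have hqA : q ≤ NA := by omega
  have hqB : q ≤ NB ^ r := hqU.trans (Nat.pow_le_pow_left hB.le r)
  have h1 := hHLD (DirichletCharacter ℂ q) G S
    (fun χ => ‖∑ n ∈ Ioc 0 NA,
      (if K < (n : ℝ) ∧ (n : ℝ) ≤ K' then ((α n : ℝ) : ℂ) else 0) * χ (n : ZMod q)‖)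
    (fun χ => ‖∑ n ∈ Ioc 0 NB,
      (if y₀ < (n : ℝ) ∧ (n : ℝ) ≤ y₁ then ((β n : ℝ) : ℂ) else 0) * χ (n : ZMod q)‖)
    r W Y hr hW hS (fun χ _ => norm_nonneg _) (fun χ _ => norm_nonneg _) hY
  refine h1.trans ?_
  obtain ⟨l0, l1⟩ := logle_PCE NB X hX hNBX
  set L : ℝ := 1 + Real.log X with hL
  have hL1 : 1 ≤ L := by linarith
  have e1 : ∑ χ ∈ G, ‖∑ n ∈ Ioc 0 NA,
      (if K < (n : ℝ) ∧ (n : ℝ) ≤ K' then ((α n : ℝ) : ℂ) else 0) * χ (n : ZMod q)‖ ^ 2 ≤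
      (2 * T * NA * L ^ 2) ^ 2 := by
    refine (Finset.sum_le_sum_of_subset_of_nonneg (Finset.subset_univ G)
      fun _ _ _ => sq_nonneg _).trans ?_
    exact mom2_PCE hMSQ hDVK q X NA _ T hX hNAX hqA hT bA
  have e2 : ∑ χ ∈ G, ‖∑ n ∈ Ioc 0 NB,
      (if y₀ < (n : ℝ) ∧ (n : ℝ) ≤ y₁ then ((β n : ℝ) : ℂ) else 0) * χ (n : ZMod q)‖ ^ (2 * r) ≤
      C0 * T ^ (2 * r) * (2 * (NB : ℝ) ^ (2 * r)) * L ^ c0 := by
    refine (Finset.sum_le_sum_of_subset_of_nonneg (Finset.subset_univ G)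
      fun i _ _ => pow_nonneg (norm_nonneg _) (2 * r)).trans ?_
    refine (hM q _ T NB hT bB).trans ?_
    have hqB' : (q : ℝ) ≤ (NB : ℝ) ^ r := by exact_mod_cast hqB
    have hN0 : (0 : ℝ) ≤ (NB : ℝ) ^ r := by positivity
    have h5 : ((NB : ℝ) ^ r + q) * (NB : ℝ) ^ r ≤ 2 * (NB : ℝ) ^ (2 * r) := by
      have h6 : (NB : ℝ) ^ (2 * r) = (NB : ℝ) ^ r * (NB : ℝ) ^ r := by
        rw [two_mul, pow_add]
      rw [h6]
      nlinarith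
    have h7 : (1 + Real.log NB) ^ c0 ≤ L ^ c0 := pow_le_pow_left₀ (by linarith) (by linarith) c0
    calc C0 * T ^ (2 * r) * ((NB : ℝ) ^ r + q) * (NB : ℝ) ^ r * (1 + Real.log NB) ^ c0
        = C0 * T ^ (2 * r) * (((NB : ℝ) ^ r + q) * (NB : ℝ) ^ r) * (1 + Real.log NB) ^ c0 := by ring
      _ ≤ C0 * T ^ (2 * r) * (2 * (NB : ℝ) ^ (2 * r)) * L ^ c0 := by
          apply mul_le_mul _ h7 (by positivity) (by positivity)
          exact mul_le_mul_of_nonneg_left h5 (by positivity)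
  have hpA : 0 ≤ ∑ χ ∈ G, ‖∑ n ∈ Ioc 0 NA,
      (if K < (n : ℝ) ∧ (n : ℝ) ≤ K' then ((α n : ℝ) : ℂ) else 0) * χ (n : ZMod q)‖ ^ 2 :=
    Finset.sum_nonneg fun _ _ => sq_nonneg _
  have hpB : 0 ≤ ∑ χ ∈ G, ‖∑ n ∈ Ioc 0 NB,
      (if y₀ < (n : ℝ) ∧ (n : ℝ) ≤ y₁ then ((β n : ℝ) : ℂ) else 0) * χ (n : ZMod q)‖ ^ (2 * r) :=
    Finset.sum_nonneg fun _ _ => pow_nonneg (norm_nonneg _) _
  have e3 := pow_le_pow_left₀ hpA e1 r
  have hXN : ((NA : ℝ) * NB) ^ (2 * r) ≤ (X : ℝ) ^ (2 * r) :=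
    pow_le_pow_left₀ (by positivity) hNN (2 * r)
  calc (∑ χ ∈ G, ‖∑ n ∈ Ioc 0 NA,
      (if K < (n : ℝ) ∧ (n : ℝ) ≤ K' then ((α n : ℝ) : ℂ) else 0) * χ (n : ZMod q)‖ ^ 2) ^ r *
      (Y ^ (r - 1) * (W ^ 2 * ∑ χ ∈ G, ‖∑ n ∈ Ioc 0 NB,
      (if y₀ < (n : ℝ) ∧ (n : ℝ) ≤ y₁ then ((β n : ℝ) : ℂ) else 0) * χ (n : ZMod q)‖ ^ (2 * r)))
      ≤ ((2 * T * NA * L ^ 2) ^ 2) ^ r * (Y ^ (r - 1) * (W ^ 2 *
        (C0 * T ^ (2 * r) * (2 * (NB : ℝ) ^ (2 * r)) * L ^ c0))) := by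
        apply mul_le_mul e3 _ (by positivity) (by positivity)
        apply mul_le_mul_of_nonneg_left _ (by positivity)
        exact mul_le_mul_of_nonneg_left e2 (by positivity)
    _ = 2 ^ (2 * r + 1) * C0 * T ^ (4 * r) * ((NA : ℝ) * NB) ^ (2 * r) * L ^ (4 * r + c0) *
        (Y ^ (r - 1) * W ^ 2) := by
        have h6 : (4 : ℕ) * r = 2 * r + 2 * r := by ring
        rw [← pow_mul, mul_pow, mul_pow, mul_pow, mul_pow, ← pow_mul, pow_add, h6, pow_add, pow_add,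
          pow_add]
        ring
    _ ≤ 2 ^ (2 * r + 1) * C0 * T ^ (4 * r) * (X : ℝ) ^ (2 * r) * L ^ (4 * r + c0) *
        (Y ^ (r - 1) * W ^ 2) := by
        apply mul_le_mul_of_nonneg_right _ (by positivity)
        apply mul_le_mul_of_nonneg_right _ (by positivity)
        exact mul_le_mul_of_nonneg_left hXN (by positivity)

end Pool.Agent.Helper25.E3
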